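import Pool.Agent.T2h50.TD.Uni

/-! Sets whose sums omit a residue class have a part with the property `Good'`. -/

namespace Pool.Agent.T2h50.TD

open Filter Pool.Agent.H645R2.HT Pool.Agent.TH747.HT Pool.Agent.TH747.HS
  Pool.Agent.Helper446 Pool.Agent.Helper446.RE Pool.Agent.N640.HU

variable {k : ℕ}

theorem exists_colour (hk : 2 ≤ k) {Y : Set ℕ} (hfin : ∀ N, ∃ u ∈ Y, N ≤ la u ∧ Final u) :
    ∃ j, j ∈ Jf k Y := by
  by_contra hcon
  push Not at hcon
  have h1 : ∀ j, ∃ N, j < k → ∀ u ∈ Y, N ≤ la u → Final u → nz u % k ≠ j := by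
    intro j
    by_cases hj : j < k
    · by_contra h2
      push Not at h2
      exact hcon j ⟨hj, fun N => by
        obtain ⟨-, u, h3, h4, h5, h6⟩ := h2 N
        exact ⟨u, h3, h4, h5, h6⟩⟩
    · exact ⟨0, fun h => absurd h hj⟩
  choose N hN using h1
  obtain ⟨u, h2, h3, h4⟩ := hfin ((Finset.range k).sup N)
  have h5 : nz u % k < k := Nat.mod_lt _ (by omega)
  exact hN _ h5 u h2 ((Finset.le_sup (f := N) (Finset.mem_range.2 h5)).trans h3) h4 rfl

theorem exists_step {c0 : ℕ} (hc0 : c0 < k) {J : Set ℕ} (hne : ∃ j, j ∈ J)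
    (hJ : ∀ j ∈ J, j < k) (hc : c0 ∉ J) : ∃ j ∈ J, (j + 1) % k ∉ J := by
  by_contra hcon
  push Not at hcon
  obtain ⟨j, hj⟩ := hne
  have h1 : ∀ i, (j + i) % k ∈ J := by
    intro i
    induction i with
    | zero => rwa [add_zero, Nat.mod_eq_of_lt (hJ j hj)]
    | succ i ih =>
      have h2 := hcon _ ih
      rwa [Nat.mod_add_mod, add_assoc] at h2
  have h2 := h1 (c0 + k - j)
  have h3 := hJ j hj
  rw [show j + (c0 + k - j) = c0 + k by omega, Nat.add_mod_right, Nat.mod_eq_of_lt hc0] at h2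
  exact hc h2

/-- All finite sums. -/
theorem thin_FS {X : Set ℕ} (hX : X.Infinite) (h0 : 0 ∉ X) {c0 : ℕ} (hk : 2 ≤ k) (hc0 : c0 < k)
    (hc : ∀ F : Finset ℕ, (F : Set ℕ) ⊆ X → F.Nonempty → nz (∑ n ∈ F, n) % k ≠ c0) :
    ∃ j N0, Good' {u | u ∈ FS X ∧ nz u % k = j ∧ N0 ≤ la u} := by
  obtain ⟨U, hU, hUX⟩ := exists_idem hX
    (fun x hx => Nat.pos_of_ne_zero fun h => h0 (h ▸ hx))
  have hadd : ∀ u ∈ FS X, ∀ᶠ l in (U : Filter ℕ), u + l ∈ FS X := by
    rintro u ⟨F, f1, f2, rfl⟩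
    filter_upwards [hUX F] with l hl
    obtain ⟨G, g1, g2, g3, rfl⟩ := hl
    refine ⟨F ∪ G, f1.mono Finset.subset_union_left, ?_, ?_⟩
    · rw [Finset.coe_union]
      exact Set.union_subset f2 g2
    · rw [Finset.sum_union g3]
  have hfin : ∀ N, ∃ u ∈ FS X, N ≤ la u ∧ Final u := by
    intro N
    obtain ⟨n, ⟨F, f1, f2, -, hF⟩, hn0, hn⟩ := ((hUX ∅).and (hU.far N)).exists
    have hn' : n ∈ FS X := ⟨F, f1, f2, hF.symm⟩
    obtain ⟨b, -, hb1, ⟨M, hM⟩, -⟩ := exists_lim (la n)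
    obtain ⟨l, hl, hl0, hl1⟩ := ((hadd n hn').and (hU.far (max M (mu n)))).exists
    have hsep : Sep n l := by unfold Pool.Agent.H645R2.HT.Sep; omega
    refine ⟨n + l, hl, ?_, Final.add hn0 hl0 hb1 hM hl1⟩
    rw [la_add hn0 hsep]
    exact hn.le
  have hcJ : c0 ∉ Jf k (FS X) := by
    rintro ⟨-, h⟩
    obtain ⟨u, ⟨F, f1, f2, rfl⟩, -, -, h3⟩ := h 0
    exact hc F f2 f1 h3
  obtain ⟨j, hj, hj'⟩ := exists_step hc0 (exists_colour hk hfin) (fun j hj => hj.1) hcJ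
  obtain ⟨N0, h⟩ := good_of (farU_idem hU) hk (zero_notMem_FS h0)
    (fun u hu => (Sm_idem hU (by omega)).2 (hadd u hu)) hj hj'
  exact ⟨j, N0, h⟩

theorem Sk_mono {X : Set ℕ} {s t : ℕ} (h : s ≤ t) : Sk s X ⊆ Sk t X := by
  rintro n ⟨F, h1, h2, h3, h4⟩
  exact ⟨F, h1, h2, h3.trans h, h4⟩

theorem Jf_mono {Y Y' : Set ℕ} (h : Y ⊆ Y') : Jf k Y ⊆ Jf k Y' := by
  rintro j ⟨h1, h2⟩
  refine ⟨h1, fun N => ?_⟩
  obtain ⟨u, h3, h4⟩ := h2 N
  exact ⟨u, h h3, h4⟩

/-- Sums of at most `k ^ 2 - k + 2` elements. -/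
theorem thin_Sk {X : Set ℕ} (h0 : 0 ∉ X) (hX : ∀ N, ∃ x ∈ X, 3 ^ N ∣ x) {c0 : ℕ} (hk : 2 ≤ k)
    (hc0 : c0 < k)
    (hc : ∀ F : Finset ℕ, (F : Set ℕ) ⊆ X → F.Nonempty → F.card ≤ k ^ 2 - k + 2 →
      nz (∑ n ∈ F, n) % k ≠ c0) :
    ∃ s j N0, Good' {u | u ∈ Sk s X ∧ nz u % k = j ∧ N0 ≤ la u} := by
  classical
  obtain ⟨V, hV, hVX⟩ := exists_farU h0 hX
  have hadd : ∀ s, ∀ u ∈ Sk s X, Sm V k (fun l => u + l ∈ Sk (s + k) X) := by
    rintro s u ⟨F, f1, f2, f3, rfl⟩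
    refine Sm_mono ?_ (Sm_mem hV hVX (k := k) (∑ x ∈ F, x))
    rintro l ⟨G, g1, g2, g3, rfl⟩
    have hd : Disjoint F G := by
      rw [Finset.disjoint_left]
      intro x hx hx'
      have h4 := g3 x hx'
      have h5 := Finset.single_le_sum (f := fun x : ℕ => x) (fun _ _ => Nat.zero_le _) hx
      omega
    refine ⟨F ∪ G, f1.mono Finset.subset_union_left, ?_, ?_, Finset.sum_union hd⟩
    · rw [Finset.coe_union]
      exact Set.union_subset f2 g1
    · rw [Finset.card_union_of_disjoint hd, g2]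
      omega
  have hzero : ∀ s, 0 ∉ Sk s X := by
    rintro s ⟨F, ⟨x, hx⟩, h2, -, h3⟩
    have h4 : x = 0 := Finset.sum_eq_zero_iff.1 h3 x hx
    exact h0 (h4 ▸ h2 hx)
  have hfin : ∀ N, ∃ u ∈ Sk 2 X, N ≤ la u ∧ Final u := by
    intro N
    obtain ⟨x, hx, hx0, hN⟩ := (hVX.and (hV N)).exists
    obtain ⟨b, -, hb1, ⟨M, hM⟩, -⟩ := exists_lim (la x)
    obtain ⟨l, hl, hl0, hl1⟩ := (hVX.and (hV (max M (mu x)))).exists
    have hsep : Sep x l := by unfold Pool.Agent.H645R2.HT.Sep; omega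
    have hne : x ≠ l := by
      rintro rfl
      have h3 := la_le_mu hx0
      omega
    refine ⟨x + l, ⟨{x, l}, by simp, ?_, ?_, ?_⟩, ?_, Final.add hx0 hl0 hb1 hM hl1⟩
    · intro w hw
      simp only [Finset.coe_insert, Finset.coe_singleton, Set.mem_insert_iff,
        Set.mem_singleton_iff] at hw
      rcases hw with rfl | rfl <;> assumption
    · rw [Finset.card_pair hne]
    · rw [Finset.sum_pair hne]
    · rw [la_add hx0 hsep]
      exact hN.le
  have hk2 : k ^ 2 - k = (k - 1) * k := by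
    obtain ⟨m, rfl⟩ : ∃ m, k = m + 1 := ⟨k - 1, by omega⟩
    have : (m + 1) ^ 2 = (m + 1 - 1) * (m + 1) + (m + 1) := by
      rw [Nat.add_sub_cancel]
      ring
    omega
  have hcJ : ∀ i, i ≤ k - 1 → c0 ∉ Jf k (Sk (2 + i * k) X) := by
    rintro i hi ⟨-, h⟩
    obtain ⟨u, ⟨F, f1, f2, f3, rfl⟩, -, -, h3⟩ := h 0
    refine hc F f2 f1 (f3.trans ?_) h3
    have h4 : i * k ≤ (k - 1) * k := Nat.mul_le_mul_right k hi
    omega
  have hmono : ∀ i, Jf k (Sk (2 + i * k) X) ⊆ Jf k (Sk (2 + (i + 1) * k) X) := by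
    intro i
    refine Jf_mono (Sk_mono ?_)
    have : (i + 1) * k = i * k + k := by ring
    omega
  have hstab : ∃ i, i + 1 ≤ k - 1 ∧
      Jf k (Sk (2 + (i + 1) * k) X) ⊆ Jf k (Sk (2 + i * k) X) := by
    by_contra hcon
    push Not at hcon
    have hcard : ∀ i, i ≤ k - 1 →
        i + 1 ≤ ((Finset.range k).filter fun j => j ∈ Jf k (Sk (2 + i * k) X)).card := by
      intro i
      induction i with
      | zero =>
        intro _
        obtain ⟨j, hj⟩ := exists_colour hk hfin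
        refine Finset.card_pos.2 ⟨j, ?_⟩
        rw [Finset.mem_filter, Finset.mem_range]
        exact ⟨hj.1, by simpa using hj⟩
      | succ i ih =>
        intro hi
        have h1 := ih (by omega)
        have h2 := hcon i hi
        rw [Set.not_subset] at h2
        obtain ⟨j, hj, hj'⟩ := h2
        have h3 : ((Finset.range k).filter fun j => j ∈ Jf k (Sk (2 + i * k) X)) ⊂
            ((Finset.range k).filter fun j => j ∈ Jf k (Sk (2 + (i + 1) * k) X)) := by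
          rw [Finset.ssubset_iff_of_subset]
          · refine ⟨j, ?_, ?_⟩
            · rw [Finset.mem_filter, Finset.mem_range]
              exact ⟨hj.1, hj⟩
            · rw [Finset.mem_filter]
              exact fun h => hj' h.2
          · intro x hx
            rw [Finset.mem_filter] at hx ⊢
            exact ⟨hx.1, hmono i hx.2⟩
        have h4 := Finset.card_lt_card h3
        omega
    have h1 := hcard (k - 1) le_rfl
    have h2 : ((Finset.range k).filter fun j => j ∈ Jf k (Sk (2 + (k - 1) * k) X)) ⊆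
        (Finset.range k).erase c0 := by
      intro x hx
      rw [Finset.mem_filter] at hx
      rw [Finset.mem_erase]
      refine ⟨?_, hx.1⟩
      rintro rfl
      exact hcJ (k - 1) le_rfl hx.2
    have h3 := Finset.card_le_card h2
    rw [Finset.card_erase_of_mem (Finset.mem_range.2 hc0), Finset.card_range] at h3
    omega
  obtain ⟨i, hi, hi'⟩ := hstab
  have hne : ∃ j, j ∈ Jf k (Sk (2 + i * k) X) := by
    obtain ⟨j, hj⟩ := exists_colour hk hfin
    exact ⟨j, Jf_mono (Sk_mono (by omega)) hj⟩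
  obtain ⟨j, hj, hj'⟩ := exists_step hc0 hne (fun j hj => hj.1) (hcJ i (by omega))
  obtain ⟨N0, h⟩ := good_of hV hk (Y' := Sk (2 + i * k + k) X) (hzero _)
    (hadd (2 + i * k)) hj (fun h => hj' (hi' (by
      rwa [show 2 + (i + 1) * k = 2 + i * k + k by ring])))
  exact ⟨_, j, N0, h⟩

/-- The number of final zeros of the ternary expansion. -/
def vl (s : ℕ) : ℕ := lst (fun j => decide (0 < s % 3 ^ (j + 1))) (s + 1)

theorem vl_eq {s j : ℕ} (h : s % 3 ^ (j + 1) = 3 ^ j) : vl s = j := by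
  have key : ∀ i, i ≤ j → s % 3 ^ (i + 1) = 3 ^ j % 3 ^ (i + 1) := by
    intro i hi
    rw [← h, Nat.mod_mod_of_dvd _ (Nat.pow_dvd_pow 3 (by omega : i + 1 ≤ j + 1))]
  have h1 : 0 < s % 3 ^ (j + 1) := by
    rw [h]
    positivity
  have h2 : j < s + 1 := by
    have h4 : s % 3 ^ (j + 1) ≤ s := Nat.mod_le _ _
    have h5 : j < 3 ^ j := Nat.lt_pow_self (by norm_num)
    omega
  obtain ⟨h3, h4, h5⟩ := lst_lt_of (q := fun j => decide (0 < s % 3 ^ (j + 1))) (n := s + 1)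
    (i := j) h2 (decide_eq_true h1)
  change vl s ≤ j at h3
  refine le_antisymm h3 ?_
  by_contra hc
  push Not at hc
  have h6 : 0 < s % 3 ^ (vl s + 1) := of_decide_eq_true h5
  rw [key (vl s) (by omega)] at h6
  have h7 : 3 ^ (vl s + 1) ∣ 3 ^ j := Nat.pow_dvd_pow 3 hc
  rw [Nat.mod_eq_zero_of_dvd h7] at h6
  exact lt_irrefl _ h6

theorem c_vl {α : Type*} [Primcodable α] {f : α → ℕ} (hf : Computable f) :
    Computable fun a => vl (f a) := by
  unfold vl
  refine c_lst (q := fun (a : α) j => decide (0 < f a % 3 ^ (j + 1))) ?_ (by fun_prop)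
  refine c_dlt (by fun_prop) ?_
  exact c_mod (by fun_prop) (c_pow3 (by fun_prop))

end Pool.Agent.T2h50.TD
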