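import Pool.Agent.N640.HU.Main

/-! The counting function `nz`, modulo `k`, on sets of sums which omit a residue class. -/

namespace Pool.Agent.T2h50.TD

open Filter Pool.Agent.H645R2.HT Pool.Agent.TH747.HT Pool.Agent.TH747.HS
  Pool.Agent.Helper446 Pool.Agent.Helper446.RE Pool.Agent.N640.HU

variable {V : Ultrafilter ℕ}

/-- The number of new clusters between `h` and a typical sum. -/
def dl (h g b : ℕ) : ℕ :=
  (if g ∈ rv [0] (wd (ys (la h)) h) then 0 else 1) + (if g < b then 1 else 0)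

theorem Gm.le {y : ℕ → ℕ} {m g b : ℕ} (hg : Gm y m g) (h1 : ∀ N, ∃ t, N < t ∧ y t = b) :
    g ≤ b := by
  obtain ⟨t, ht, ht'⟩ := h1 m
  rw [← ht']
  exact hg.1 t ht

/-- The count of `h + l` for typical sums `l` of `k` elements. -/
theorem count (hV : FarU V) {k : ℕ} (hk : 2 ≤ k) {h : ℕ} (hh : 0 < h) {g b : ℕ}
    (h1 : ∀ N, ∃ t, N < t ∧ ys (la h) t = b) (h2 : ∃ N, ∀ t, N < t → b ≤ ys (la h) t)
    (hg : Gm (ys (la h)) (mu h) g) :
    Sm V k (fun l => nz (h + l) % k = (nz h + dl h g b) % k) := by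
  set y := ys (la h) with hy
  obtain ⟨r, -, hr⟩ := exists_const (U := V) (fun n => cl [b] (wd y n) % k) k
    (Eventually.of_forall fun n => Nat.mod_lt _ (by omega))
  obtain ⟨k', rfl⟩ : ∃ k', k = k' + 1 := ⟨k - 1, by omega⟩
  have h3 := cnt_fin hV h1 h2 hr k'
  obtain ⟨t0, ht0, hyt⟩ := hg.2
  have h4 := Sm_far hV (k := k' + 1) (by omega) (max t0 (mu h))
  refine Sm_mono ?_ (Sm_and h3 h4)
  rintro n ⟨⟨i1, i2, i3⟩, ⟨i4, i5⟩⟩
  have i3' := i3 (by omega)
  rw [Nat.mul_mod_right] at i2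
  have hsep : Sep h n := by unfold Pool.Agent.H645R2.HT.Sep; omega
  have hmn : mn y (mu h) (la n) = g := by
    refine le_antisymm ?_ ?_
    · rw [← hyt]; exact mn_le ht0 (by omega)
    · obtain ⟨t', h5, _, h6⟩ := mn_mem (y := y) hsep
      rw [h6]
      exact hg.1 t' h5
  have e1 : nz (h + n) = cl [0] (wd y h ++ (g :: wd y n)) := by
    unfold nz
    rw [la_add hh hsep, ← hy, wd_add hh i4 hsep, hmn]
  have e2 : nz h = cl [0] (wd y h) := rfl
  have hgb : g ≤ b := Gm.le hg h1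
  have e3 : nz (h + n) = (nz h + dl h g b) + cl [b] (wd y n) := by
    rw [e1, e2]
    unfold dl
    rw [← hy]
    rcases hgb.lt_or_eq with h5 | h5
    · rw [join_lt h5 i1 i3', if_pos h5]
      omega
    · subst h5
      rw [join_eq i1, if_neg (lt_irrefl _)]
      omega
  rw [e3, Nat.add_mod, i2, add_zero, Nat.mod_mod]

/-- After `h` the sequence has the lower limit as its least value. -/
def Final (h : ℕ) : Prop :=
  ∃ b, (∀ N, ∃ t, N < t ∧ ys (la h) t = b) ∧ Gm (ys (la h)) (mu h) b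

theorem Final.add {h l : ℕ} (hh : 0 < h) (hl : 0 < l) {b N : ℕ}
    (h1 : ∀ N, ∃ t, N < t ∧ ys (la h) t = b) (h2 : ∀ t, N < t → b ≤ ys (la h) t)
    (h3 : max N (mu h) < la l) : Final (h + l) := by
  have hsep : Sep h l := by unfold Pool.Agent.H645R2.HT.Sep; omega
  have e1 : la (h + l) = la h := la_add hh hsep
  have e2 : mu (h + l) = mu l := mu_add hl hsep
  have e3 := la_le_mu hl
  refine ⟨b, ?_, ?_⟩
  · rw [e1]; exact h1
  · rw [e1, e2]
    exact ⟨fun t ht => h2 t (by omega), h1 _⟩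

/-- The limit is unique. -/
theorem Final.gm {h b : ℕ} (hF : Final h) (h1 : ∀ N, ∃ t, N < t ∧ ys (la h) t = b)
    (h2 : ∃ N, ∀ t, N < t → b ≤ ys (la h) t) : Gm (ys (la h)) (mu h) b := by
  obtain ⟨b', f1, f2⟩ := hF
  have e1 : b' ≤ b := Gm.le f2 h1
  have e2 : b ≤ b' := by
    obtain ⟨N, hN⟩ := h2
    obtain ⟨t, ht, ht'⟩ := f1 N
    rw [← ht']
    exact hN t ht
  have : b' = b := le_antisymm e1 e2
  rwa [← this]

/-- The colours of the final elements of `Y` with large lowest position. -/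
def Jf (k : ℕ) (Y : Set ℕ) : Set ℕ :=
  {j | j < k ∧ ∀ N, ∃ u ∈ Y, N ≤ la u ∧ Final u ∧ nz u % k = j}

/-- The properties of the set of sums which are used. -/
structure Good' (Y : Set ℕ) : Prop where
  rel : ∀ h ∈ Y, ∀ g b, 0 < b → (∀ N, ∃ t, N < t ∧ ys (la h) t = b) →
    (∃ N, ∀ t, N < t → b ≤ ys (la h) t) → Gm (ys (la h)) (mu h) g →
    0 < g ∧ g ≤ b ∧ (g ∈ rv [0] (wd (ys (la h)) h) ↔ g = b)
  rich : ∀ N, ∃ h ∈ Y, N ≤ la h ∧ Final h

theorem good_of (hV : FarU V) {k : ℕ} (hk : 2 ≤ k) {Y Y' : Set ℕ} (h0 : 0 ∉ Y)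
    (hadd : ∀ u ∈ Y, Sm V k (fun l => u + l ∈ Y')) {j : ℕ} (hj : j ∈ Jf k Y)
    (hj' : (j + 1) % k ∉ Jf k Y') :
    ∃ N0, Good' {u | u ∈ Y ∧ nz u % k = j ∧ N0 ≤ la u} := by
  have hex : ∃ N0, ∀ u ∈ Y', N0 ≤ la u → Final u → nz u % k ≠ (j + 1) % k := by
    by_contra hcon
    push Not at hcon
    exact hj' ⟨Nat.mod_lt _ (by omega), fun N => by
      obtain ⟨u, h1, h2, h3, h4⟩ := hcon N
      exact ⟨u, h1, h2, h3, h4⟩⟩
  obtain ⟨N0, hN0⟩ := hex
  refine ⟨N0, ?_, ?_⟩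
  · rintro h ⟨hY, hc, hla⟩ g b hb h1 h2 hg
    have hh : 0 < h := Nat.pos_of_ne_zero fun h' => h0 (h' ▸ hY)
    have hgb : g ≤ b := Gm.le hg h1
    obtain ⟨N, hN⟩ := h2
    obtain ⟨l, i1, i2, i3, i4⟩ := Sm_exists (Sm_and (count hV hk hh h1 ⟨N, hN⟩ hg)
      (Sm_and (hadd h hY) (Sm_far hV (k := k) (by omega) (max N (mu h)))))
    have hsep : Sep h l := by unfold Pool.Agent.H645R2.HT.Sep; omega
    have e1 : la (h + l) = la h := la_add hh hsep
    have h3 := hN0 _ i2 (by omega) (Final.add hh i3 h1 hN i4)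
    rw [i1] at h3
    have h4 : dl h g b ≠ 1 := by
      intro h5
      apply h3
      rw [h5, Nat.add_mod, hc, ← Nat.add_mod_right]
      rw [Nat.add_mod_right, Nat.add_mod j 1 k, Nat.mod_eq_of_lt hj.1]
    unfold dl at h4
    by_cases h5 : g ∈ rv [0] (wd (ys (la h)) h)
    · rw [if_pos h5] at h4
      have h6 : ¬ g < b := by
        intro h7
        rw [if_pos h7] at h4
        exact h4 rfl
      have h7 : g = b := by omega
      exact ⟨by omega, hgb, fun _ => h7, fun _ => h5⟩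
    · rw [if_neg h5] at h4
      have h6 : g < b := by
        by_contra h7
        rw [if_neg h7] at h4
        exact h4 rfl
      refine ⟨?_, hgb, fun h => absurd h h5, fun h => absurd h h6.ne⟩
      by_contra h7
      have h8 : g = 0 := by omega
      subst h8
      exact h5 (mem_rv_of (fun _ _ => Nat.zero_le _) (Or.inr (by simp)))
  · intro N
    obtain ⟨u, h1, h2, h3, h4⟩ := hj.2 (max N N0)
    exact ⟨u, ⟨h1, h4, by omega⟩, by omega, h3⟩

end Pool.Agent.T2h50.TD
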