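import Pool.Agent.T2h50.TD.Rel

/-! Sets with the property `Good'` compute the double jump (the arguments of
`Pool.Agent.N640.HU.Main`). -/

namespace Pool.Agent.T2h50.TD

open Filter Pool.Agent.H645R2.HT Pool.Agent.TH747.HT Pool.Agent.TH747.HS
  Pool.Agent.Helper446 Pool.Agent.Helper446.RE Pool.Agent.N640.HU

variable {Y : Set ℕ}

/-- The first jump. -/
theorem Good'.out (hG : Good' Y) {z : ℕ} :
    (∀ s, W0 s z = false) ↔ ∃ h, h ∈ Y ∧ z < la h + 1 ∧ W0 (mu h) z = false := by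
  constructor
  · intro hz
    obtain ⟨h, hh, h1, -⟩ := hG.rich z
    exact ⟨h, hh, by omega, hz _⟩
  · rintro ⟨h, hh, h1, h2⟩ s
    by_contra hc
    rw [Bool.not_eq_false] at hc
    obtain ⟨t, ht, ht'⟩ := ys_zero (x := la h) (by omega : z ≤ la h) hc h2
    obtain ⟨b, hb0, hb1, hb2, -⟩ := exists_lim (la h)
    obtain ⟨g, hg⟩ := exists_Gm (ys (la h)) (mu h)
    have h3 := (hG.rel h hh g b hb0 hb1 hb2 hg).1
    have h4 := hg.1 t ht
    omega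

/-- The second jump. -/
theorem Good'.notA (hG : Good' Y) {n : ℕ} :
    ¬ A W0 p0 n ↔ ∃ h, h ∈ Y ∧ ∃ v, (n < la h + 1 ∧ v ∈ rv [0] (wd (ys (la h)) h) ∧
      (∃ t, mu h < t ∧ ys (la h) t = v) ∧ ∀ z < v, p0 z ≠ n ∨ ∃ s, W0 s z = true) ∧
      ¬ ∃ t, mu h < t ∧ ys (la h) t < v := by
  constructor
  · intro hA
    obtain ⟨h, hh, h1, h2⟩ := hG.rich n
    obtain ⟨b, hb0, hb1, hb2, -⟩ := exists_lim (la h)
    have hg := h2.gm hb1 hb2
    have h3 := hG.rel h hh b b hb0 hb1 hb2 hg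
    refine ⟨h, hh, b, ⟨by omega, h3.2.2.2 rfl, hg.2, fun z _ => ?_⟩, ?_⟩
    · by_contra hc
      push Not at hc
      exact hA ⟨z, hc.1, fun s => by simpa using hc.2 s⟩
    · rintro ⟨t, ht, ht'⟩
      have := hg.1 t ht
      omega
  · rintro ⟨h, hh, v, ⟨h1, h2, h3, h4⟩, h5⟩ hA
    obtain ⟨b, hb0, hb1, hb2, hb3⟩ := exists_lim (la h)
    have hg : Gm (ys (la h)) (mu h) v := ⟨fun t ht => by
      by_contra hc
      exact h5 ⟨t, ht, by omega⟩, h3⟩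
    have h6 := (hG.rel h hh v b hb0 hb1 hb2 hg).2.2.1 h2
    obtain ⟨z, hz, hz1, hz2⟩ := hb3 n (by omega) hA
    rcases h4 z (by omega) with h7 | ⟨s, hs⟩
    · exact h7 hz1
    · rw [hz2 s] at hs
      cases hs

section uniform

variable {𝓕 : Set ℕ → Prop} {Yf : Set ℕ → Set ℕ}

theorem ue_out (hY : UE 𝓕 fun X (n : ℕ) => n ∈ Yf X) (hG : ∀ X, 𝓕 X → Good' (Yf X)) :
    UE 𝓕 (fun _ (z : ℕ) => ∀ s, W0 s z = false) := by
  have h : UE 𝓕 (fun X (z : ℕ) => ∃ h, h ∈ Yf X ∧ z < la h + 1 ∧ W0 (mu h) z = false) := by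
    refine UE.ex (S := fun X (z h : ℕ) => h ∈ Yf X ∧ z < la h + 1 ∧ W0 (mu h) z = false) ?_
    refine UE.and (hY.comp (f := fun x : ℕ × ℕ => x.2) (by fun_prop)) (UE.of_re ?_)
    refine RE.and (RE.lt (by fun_prop) (Computable.succ.comp (c_la (by fun_prop))))
      (RE.eq ?_ (by fun_prop))
    exact c_W0.comp (g := fun x : ℕ × ℕ => (mu x.2, x.1))
      (Computable.pair (c_mu (by fun_prop)) (by fun_prop))
  exact h.of_eq fun X hX z => (hG X hX).out.symm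

theorem ue_not (hY : UE 𝓕 fun X (n : ℕ) => n ∈ Yf X) (hG : ∀ X, 𝓕 X → Good' (Yf X))
    {p : ℕ → Prop} (hp : REPred p) : UE 𝓕 (fun _ (n : ℕ) => ¬ p n) := by
  obtain ⟨e, he⟩ := univ_W0 hp
  refine ((ue_out hY hG).comp (f := fun n : ℕ => Nat.pair e n) (by fun_prop)).of_eq
    fun X _ n => ?_
  rw [he n]
  push Not
  exact forall_congr' fun s => by simp

/-- The complement of the double jump. -/
theorem ue_notA (hY : UE 𝓕 fun X (n : ℕ) => n ∈ Yf X) (hG : ∀ X, 𝓕 X → Good' (Yf X)) :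
    UE 𝓕 (fun _ (n : ℕ) => ¬ A W0 p0 n) := by
  have hlt : REPred fun w : ℕ => ∃ t, mu w.unpair.1 < t ∧ ys (la w.unpair.1) t < w.unpair.2 := by
    refine RE.exN (p := fun (w : ℕ) t => mu w.unpair.1 < t ∧
      ys (la w.unpair.1) t < w.unpair.2) ?_
    refine RE.and (RE.lt (c_mu (by fun_prop)) (by fun_prop)) (RE.lt ?_ (by fun_prop))
    exact c_ys (c_la (by fun_prop)) (by fun_prop)
  have h1 := ue_not hY hG hlt
  have h : UE 𝓕 (fun X (n : ℕ) => ∃ h, ∃ v, h ∈ Yf X ∧ (n < la h + 1 ∧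
      v ∈ rv [0] (wd (ys (la h)) h) ∧
      (∃ t, mu h < t ∧ ys (la h) t = v) ∧ ∀ z < v, p0 z ≠ n ∨ ∃ s, W0 s z = true) ∧
      ¬ ∃ t, mu h < t ∧ ys (la h) t < v) := by
    refine UE.ex (S := fun X (n h : ℕ) => ∃ v, h ∈ Yf X ∧ (n < la h + 1 ∧
      v ∈ rv [0] (wd (ys (la h)) h) ∧
      (∃ t, mu h < t ∧ ys (la h) t = v) ∧ ∀ z < v, p0 z ≠ n ∨ ∃ s, W0 s z = true) ∧
      ¬ ∃ t, mu h < t ∧ ys (la h) t < v) ?_
    refine UE.ex (S := fun X (x : ℕ × ℕ) (v : ℕ) => x.2 ∈ Yf X ∧ (x.1 < la x.2 + 1 ∧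
      v ∈ rv [0] (wd (ys (la x.2)) x.2) ∧
      (∃ t, mu x.2 < t ∧ ys (la x.2) t = v) ∧ ∀ z < v, p0 z ≠ x.1 ∨ ∃ s, W0 s z = true) ∧
      ¬ ∃ t, mu x.2 < t ∧ ys (la x.2) t < v) ?_
    refine UE.and (hY.comp (f := fun x : (ℕ × ℕ) × ℕ => x.1.2) (by fun_prop))
      (UE.and (UE.of_re ?_) ?_)
    · refine RE.and (RE.lt (by fun_prop) (Computable.succ.comp (c_la (by fun_prop))))
        (RE.and ?_ (RE.and ?_ ?_))
      · exact RE.mem_list (f := fun x : (ℕ × ℕ) × ℕ => x.2) (by fun_prop)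
          (c_rv0 (c_word (by fun_prop)))
      · refine RE.exN (p := fun (x : (ℕ × ℕ) × ℕ) t => mu x.1.2 < t ∧
          ys (la x.1.2) t = x.2) ?_
        refine RE.and (RE.lt (c_mu (by fun_prop)) (by fun_prop)) (RE.eq ?_ (by fun_prop))
        exact c_ys (c_la (by fun_prop)) (by fun_prop)
      · refine RE.all_lt (p := fun (x : (ℕ × ℕ) × ℕ) z => p0 z ≠ x.1.1 ∨
          ∃ s, W0 s z = true) ?_ (by fun_prop)
        refine RE.or (RE.ne (c_p0.comp (by fun_prop)) (by fun_prop)) ?_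
        refine RE.exN (p := fun (x : ((ℕ × ℕ) × ℕ) × ℕ) s => W0 s x.2 = true) ?_
        exact RE.of_bool (c_W0.comp (g := fun x : (((ℕ × ℕ) × ℕ) × ℕ) × ℕ => (x.2, x.1.2))
          (by fun_prop))
    · refine (h1.comp (f := fun x : (ℕ × ℕ) × ℕ => Nat.pair x.1.2 x.2) (by fun_prop)).of_eq
        fun X _ x => ?_
      rw [Nat.unpair_pair]
  refine h.of_eq fun X hX n => ?_
  rw [(hG X hX).notA]
  exact ⟨fun ⟨h, v, h1, h2⟩ => ⟨h, h1, v, h2⟩, fun ⟨h, h1, v, h2⟩ => ⟨h, v, h1, h2⟩⟩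

/-- The double jump. -/
theorem ue_A (hY : UE 𝓕 fun X (n : ℕ) => n ∈ Yf X) (hG : ∀ X, 𝓕 X → Good' (Yf X)) :
    UE 𝓕 (fun _ (n : ℕ) => A W0 p0 n) := by
  unfold A
  refine UE.ex (S := fun _ (n z : ℕ) => p0 z = n ∧ ∀ s, W0 s z = false) ?_
  refine UE.and (UE.of_re (RE.eq (c_p0.comp (by fun_prop)) (by fun_prop))) ?_
  exact (ue_out hY hG).comp (f := fun x : ℕ × ℕ => x.2) (by fun_prop)

/-- The uniform reduction of an arbitrary `Σ⁰₂` set. -/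
theorem uniform (hY : UE 𝓕 fun X (n : ℕ) => n ∈ Yf X) (hG : ∀ X, 𝓕 X → Good' (Yf X))
    {R : ℕ → ℕ → ℕ → Bool} (hR : Computable fun q : ℕ × ℕ × ℕ => R q.1 q.2.1 q.2.2) :
    UE 𝓕 (fun _ (n : ℕ) => ∃ a, ∀ b, R n a b = true) ∧
      UE 𝓕 (fun _ (n : ℕ) => ¬ ∃ a, ∀ b, R n a b = true) := by
  obtain ⟨e, he⟩ := sigma2_univ hR
  constructor
  · exact ((ue_A hY hG).comp (f := fun n : ℕ => Nat.pair e n) (by fun_prop)).of_eq
      fun X _ n => (he n).symm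
  · exact ((ue_notA hY hG).comp (f := fun n : ℕ => Nat.pair e n) (by fun_prop)).of_eq
      fun X _ n => not_congr (he n).symm

end uniform

theorem c_nz : Computable nz := by
  unfold nz
  exact c_cl0 (c_word (f := fun n : ℕ => n) (by fun_prop))

/-- Uniform enumerability of the part of `Yf X` with the colour `j` and lowest position `≥ N`. -/
theorem ue_part {𝓕 : Set ℕ → Prop} {Yf : Set ℕ → Set ℕ}
    (hY : UE 𝓕 fun X (n : ℕ) => n ∈ Yf X) (k j N : ℕ) :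
    UE 𝓕 fun X (n : ℕ) => n ∈ {u | u ∈ Yf X ∧ nz u % k = j ∧ N ≤ la u} := by
  refine UE.and hY (UE.of_re ?_)
  exact RE.and (RE.eq (c_mod (c_nz.comp (by fun_prop)) (by fun_prop)) (by fun_prop))
    (RE.le (by fun_prop) (c_la (by fun_prop)))

end Pool.Agent.T2h50.TD
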